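import Pool.Agent.TH735.FO.Rule

/-!
Quasiminimality of the complex numbers for formulas all of whose quantifiers are guarded by an
equation `F(s, x) = 0` of finite order in the quantified variable `x`; the matrix of the
quantified formula is arbitrary.
-/

set_option autoImplicit false

namespace Pool.Agent.Results.MP_a12702_lc.FiniteOrderGuards

open Set Cardinal Pool.Agent.TH735.QM Pool.Agent.TH735.FO

/-- Closure conditions on families `𝒟 m` of subsets of `ℂ^m`. -/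
structure Closed (𝒟 : (m : ℕ) → Set (Set (Fin m → ℂ))) : Prop where
  /-- zero sets of arbitrary entire functions -/
  zero : ∀ (m : ℕ) (f : (Fin m → ℂ) → ℂ), AnalyticOnNhd ℂ f univ → {s | f s = 0} ∈ 𝒟 m
  /-- complements -/
  compl : ∀ (m : ℕ) (X : Set (Fin m → ℂ)), X ∈ 𝒟 m → Xᶜ ∈ 𝒟 m
  /-- countable unions -/
  iUnion : ∀ (m : ℕ) (X : ℕ → Set (Fin m → ℂ)), (∀ i, X i ∈ 𝒟 m) → (⋃ i, X i) ∈ 𝒟 m
  /-- preimages under entire maps -/
  preimage : ∀ (m n : ℕ) (h : (Fin n → ℂ) → (Fin m → ℂ)), AnalyticOnNhd ℂ h univ →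
    ∀ X ∈ 𝒟 m, h ⁻¹' X ∈ 𝒟 n
  /-- the quantifier: there are at least `κ` numbers `x` such that ..., where the matrix is arbitrary at the
  zeros `x` of `F(s, ·)` (`F` entire, of finite order in `x` locally uniformly in `s`), and is a
  countable Boolean combination of conditions `s ∈ E` and `x ∈ D` at the other `x` -/
  guard : ∀ (m : ℕ) (F : (Fin m → ℂ) → ℂ → ℂ),
    AnalyticOnNhd ℂ (fun p : (Fin m → ℂ) × ℂ => F p.1 p.2) univ → FiniteOrder F →
    ∀ X ∈ 𝒟 (m + 1), ∀ R : Set ((Fin m → ℂ) × (Fin 1 → ℂ)),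
      Rect (· ∈ 𝒟 m) (· ∈ 𝒟 1) R → ∀ κ : Cardinal.{0},
    {s | κ ≤ #({x : ℂ | (IsZero F s x ∧
      (Fin.snoc (α := fun _ => ℂ) s x : Fin (m + 1) → ℂ) ∈ X) ∨
      (¬ IsZero F s x ∧ (s, fun _ => x) ∈ R)} : Set ℂ)} ∈ 𝒟 m

theorem closed_CQ : Closed (fun m => {X | CQ m X}) where
  zero := fun _ _ hf => CQ.zero hf
  compl := fun _ _ hX => CQ.compl hX
  iUnion := fun _ _ hX => CQ.iUnion hX
  preimage := fun _ _ _ hh _ hX => CQ.preimage hX hh
  guard := by
    intro m F hF hord X hX R hR κ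
    exact CQ.guard hF hord hX (fun E hE => hE) (fun D hD => hD) hR κ

/-- Every set of complex numbers in the least closed family is countable or cocountable. -/
theorem result : ∀ X : Set ℂ,
    (∀ 𝒟 : (m : ℕ) → Set (Set (Fin m → ℂ)), Closed 𝒟 → {v : Fin 1 → ℂ | v 0 ∈ X} ∈ 𝒟 1) →
    X.Countable ∨ Xᶜ.Countable := by
  intro X hX
  have h1 := (hX _ closed_CQ : CQ 1 {v : Fin 1 → ℂ | v 0 ∈ X}).qm
  exact h1

end Pool.Agent.Results.MP_a12702_lc.FiniteOrderGuards
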