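import Pool.Agent.TH735.BF.Closure

/-!
Homogeneity of the closure operator given by equations of finite order in one unknown.

`Cl F S` is the closure of the set `S` of complex numbers under solving the equations
`F k y z = 0` for `z`, where `y` is a tuple of elements of the closure and `F k y` is not
identically zero. For example, if the `F k` are all exponential polynomials
`P(y, e^y, z, e^z)` with integer coefficients, then `Cl F S` is an algebraically closed
exponential subfield of `ℂ` which contains all logarithms of its nonzero elements and all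
solutions of nontrivial exponential polynomial equations `P(z, e^z) = 0` over it.

The theorem says that, along every analytic curve `γ`, any two such closures of `A ∪ γ(t)`
(`A` a fixed countable set) are isomorphic over the closure of `A`, by an isomorphism which moves
`γ(t)` to `γ(t')` and respects any countably many relations given in advance whose sections by
analytic curves are countable or cocountable, for all `t`, `t'` outside of a countable set.
With `γ(t) = t` this says that all generic elements look alike in the closures they generate.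
-/

set_option autoImplicit false

namespace Pool.Agent.Results.MP_a12702_lc.IsomorphicClosures

open Set Pool.Agent.TH735.QM Pool.Agent.TH735.FO Pool.Agent.TH735.BF

theorem result (m : ℕ → ℕ) (F : (k : ℕ) → (Fin (m k) → ℂ) → ℂ → ℂ)
    (hF : ∀ k, AnalyticOnNhd ℂ (fun p : (Fin (m k) → ℂ) × ℂ => F k p.1 p.2) univ)
    (hord : ∀ k, FiniteOrder (F k))
    (n : ℕ → ℕ) (R : (j : ℕ) → Set (Fin (n j) → ℂ)) (hR : ∀ j, CQ (n j) (R j))
    (A : Set ℂ) (hA : A.Countable)
    (U : Set ℂ) (hU : IsOpen U) (hUc : IsPreconnected U)
    (d : ℕ) (γ : ℂ → (Fin (d + 1) → ℂ)) (hγ : AnalyticOnNhd ℂ γ U) :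
    ∃ B : Set ℂ, B.Countable ∧ ∀ t ∈ U, ∀ t' ∈ U, t ∉ B → t' ∉ B →
      ∃ σ : {z // Cl F (A ∪ range (γ t)) z} ≃ {z // Cl F (A ∪ range (γ t')) z},
        (∀ i, (σ ⟨γ t i, Cl.base (Or.inr ⟨i, rfl⟩)⟩ : ℂ) = γ t' i) ∧
        (∀ z, ∀ hz : Cl F A z, (σ ⟨z, hz.mono subset_union_left⟩ : ℂ) = z) ∧
        ∀ j, ∀ v : Fin (n j) → {z // Cl F (A ∪ range (γ t)) z},
          (fun a => (v a : ℂ)) ∈ R j ↔ (fun a => (σ (v a) : ℂ)) ∈ R j :=
  closures hF hord hR hA hU hUc hγ

end Pool.Agent.Results.MP_a12702_lc.IsomorphicClosures
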