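import Pool.Agent.TH735.BF.Block

/-!
Quasiminimality, in the sense of the problem (automorphisms), of the structures on `ℂ` obtained
from arbitrary curve-regular relations by restriction to blocks.

`Cl F S` is the closure of the set `S` of complex numbers under solving the equations
`F k y z = 0` of finite order in the unknown `z`, where `y` is a tuple of elements of the closure
and `F k y` is not identically zero. A tuple is blocked if any two of its coordinates that are not
in the closure of the empty set lie in each other's closure. For example, if the `F k` are all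
exponential polynomials `P(y, e^y, z, e^z)` with integer coefficients, then all pairs `(x, y)` with
`P(x, y, e^x, e^y) = 0` for some nonzero integer polynomial `P` are blocked, so the automorphisms
below respect all these relations (in particular they commute with `exp`), and they respect
`x + y = z` and `x y = z` for blocked `(x, y, z)`.
-/

set_option autoImplicit false

namespace Pool.Agent.Results.MP_a12702_lc.LocalReducts

open Set Pool.Agent.TH735.QM Pool.Agent.TH735.FO Pool.Agent.TH735.BF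

/-- `σ` is an automorphism, fixing `A` pointwise, of the structure on `ℂ` whose relations are the
sets of blocked `n`-tuples and the restrictions of the `R j` to blocked tuples. -/
def IsAut {m : ℕ → ℕ} (F : (k : ℕ) → (Fin (m k) → ℂ) → ℂ → ℂ) {n : ℕ → ℕ}
    (R : (j : ℕ) → Set (Fin (n j) → ℂ)) (A : Set ℂ) (σ : Equiv.Perm ℂ) : Prop :=
  (∀ a ∈ A, σ a = a) ∧
  (∀ (l : ℕ) (v : Fin l → ℂ), Blocked F v ↔ Blocked F fun a => σ (v a)) ∧
  ∀ j, ∀ v : Fin (n j) → ℂ, Blocked F v → (v ∈ R j ↔ (fun a => σ (v a)) ∈ R j)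

theorem result (m : ℕ → ℕ) (F : (k : ℕ) → (Fin (m k) → ℂ) → ℂ → ℂ)
    (hF : ∀ k, AnalyticOnNhd ℂ (fun p : (Fin (m k) → ℂ) × ℂ => F k p.1 p.2) univ)
    (hord : ∀ k, FiniteOrder (F k))
    (n : ℕ → ℕ) (R : (j : ℕ) → Set (Fin (n j) → ℂ)) (hR : ∀ j, CQ (n j) (R j))
    (A : Set ℂ) (hA : A.Countable) :
    (∃ B : Set ℂ, B.Countable ∧ ∀ t t', t ∉ B → t' ∉ B →
      ∃ σ : Equiv.Perm ℂ, IsAut F R A σ ∧ σ t = t') ∧
    ∀ X : Set ℂ, (∀ σ : Equiv.Perm ℂ, IsAut F R A σ → σ '' X = X) →
      X.Countable ∨ Xᶜ.Countable := by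
  have h : ∃ B : Set ℂ, B.Countable ∧ ∀ t t', t ∉ B → t' ∉ B →
      ∃ σ : Equiv.Perm ℂ, IsAut F R A σ ∧ σ t = t' := by
    obtain ⟨B, hB, h⟩ := blocked_auto hF hord hR hA
    refine ⟨B, hB, fun t t' ht ht' => ?_⟩
    obtain ⟨σ, h1, h2, h3, h4⟩ := h t t' ht ht'
    exact ⟨σ, ⟨h1, h3, h4⟩, h2⟩
  refine ⟨h, ?_⟩
  intro X hX
  obtain ⟨B, hB, h⟩ := h
  by_contra hcon
  push Not at hcon
  obtain ⟨t, ht, htB⟩ := nonempty_of_not_countable (not_countable_sdiff hcon.1 hB)
  obtain ⟨t', ht', htB'⟩ := nonempty_of_not_countable (not_countable_sdiff hcon.2 hB)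
  obtain ⟨σ, hσ, hσt⟩ := h t t' htB htB'
  apply ht'
  rw [← hX σ hσ, ← hσt]
  exact mem_image_of_mem σ ht

end Pool.Agent.Results.MP_a12702_lc.LocalReducts
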