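import Pool.Agent.TH735.QM.Closure

/-!
Quasiminimality of the complex numbers for formulas whose quantifiers range over the solutions
of one equation in several unknowns, over the points algebraic over the parameters, or count the
solutions in one unknown of several equations.
-/

set_option autoImplicit false

namespace Pool.Agent.Results.MP_a12702_lc.OneEquationQuantifiers

open Set Cardinal Pool.Agent.TH735.QM

/-- Closure conditions on families `𝒟 m` of subsets of `ℂ^m`. -/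
structure Closed (𝒟 : (m : ℕ) → Set (Set (Fin m → ℂ))) : Prop where
  /-- zero sets of entire functions -/
  zero : ∀ (m : ℕ) (f : (Fin m → ℂ) → ℂ), AnalyticOnNhd ℂ f univ → {s | f s = 0} ∈ 𝒟 m
  /-- complements -/
  compl : ∀ (m : ℕ) (X : Set (Fin m → ℂ)), X ∈ 𝒟 m → Xᶜ ∈ 𝒟 m
  /-- countable unions -/
  iUnion : ∀ (m : ℕ) (X : ℕ → Set (Fin m → ℂ)), (∀ i, X i ∈ 𝒟 m) → (⋃ i, X i) ∈ 𝒟 m
  /-- preimages under entire maps -/
  preimage : ∀ (m n : ℕ) (h : (Fin n → ℂ) → (Fin m → ℂ)), AnalyticOnNhd ℂ h univ →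
    ∀ X ∈ 𝒟 m, h ⁻¹' X ∈ 𝒟 n
  /-- one equation in `n` unknowns `x`; the side conditions are `N j x ≠ 0` for countably many
  entire `N j`, and a countable Boolean combination (different on the two sides of the equation)
  of conditions `s ∈ E` and `(L x) i ∈ D` with `L` affine -/
  ex : ∀ (m n r : ℕ) (F : (Fin m → ℂ) → (Fin n → ℂ) → ℂ), Adm m n F →
    ∀ (L : (Fin n → ℂ) →ᵃ[ℂ] (Fin r → ℂ)) (N : ℕ → (Fin n → ℂ) → ℂ),
    (∀ j, AnalyticOnNhd ℂ (N j) univ) →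
    ∀ R₁ R₀ : Set ((Fin m → ℂ) × (Fin r → ℂ)), Rect (· ∈ 𝒟 m) (· ∈ 𝒟 1) R₁ →
      Rect (· ∈ 𝒟 m) (· ∈ 𝒟 1) R₀ →
    {s | ∃ x, (∀ j, N j x ≠ 0) ∧
      ((F s x = 0 ∧ (s, L x) ∈ R₁) ∨ (F s x ≠ 0 ∧ (s, L x) ∈ R₀))} ∈ 𝒟 m
  /-- counting quantifiers over one unknown `z`: at the points algebraic over `s` the matrix is
  arbitrary, elsewhere it consists of one equation and a countable Boolean combination of
  conditions `s ∈ E` and `z ∈ D` -/
  count : ∀ (m d : ℕ) (a : Fin (d + 1) → (Fin m → ℂ) → ℂ),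
    (∀ j, AnalyticOnNhd ℂ (a j) univ) → ∀ X ∈ 𝒟 (m + 1),
    ∀ F : (Fin m → ℂ) → (Fin 1 → ℂ) → ℂ, Adm m 1 F →
    ∀ R₁ R₀ : Set ((Fin m → ℂ) × (Fin 1 → ℂ)), Rect (· ∈ 𝒟 m) (· ∈ 𝒟 1) R₁ →
      Rect (· ∈ 𝒟 m) (· ∈ 𝒟 1) R₀ → ∀ κ : Cardinal.{0},
    {s | κ ≤ #({z : ℂ | (IsAlg a s z ∧
      (Fin.snoc (α := fun _ => ℂ) s z : Fin (m + 1) → ℂ) ∈ X) ∨
      (¬ IsAlg a s z ∧ ((F s (fun _ => z) = 0 ∧ (s, fun _ => z) ∈ R₁) ∨
        (F s (fun _ => z) ≠ 0 ∧ (s, fun _ => z) ∈ R₀)))} : Set ℂ)} ∈ 𝒟 m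
  /-- the same with an arbitrary Boolean combination of finitely many equations which are
  polynomial in `z` and in the exponential of one entire function `h(s, z)` -/
  system : ∀ (m d e n : ℕ) (a : Fin (d + 1) → (Fin m → ℂ) → ℂ),
    (∀ j, AnalyticOnNhd ℂ (a j) univ) → ∀ X ∈ 𝒟 (m + 1),
    ∀ c : Fin n → Fin (e + 1) → Fin (e + 1) → (Fin m → ℂ) → ℂ,
    (∀ j i k, AnalyticOnNhd ℂ (c j i k) univ) → ∀ h : (Fin m → ℂ) → ℂ → ℂ,
    AnalyticOnNhd ℂ (fun p : (Fin m → ℂ) × ℂ => h p.1 p.2) univ →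
    ∀ R : Set (Fin n) → Set ((Fin m → ℂ) × (Fin 1 → ℂ)),
      (∀ Z, Rect (· ∈ 𝒟 m) (· ∈ 𝒟 1) (R Z)) → ∀ κ : Cardinal.{0},
    {s | κ ≤ #({z : ℂ | (IsAlg a s z ∧
      (Fin.snoc (α := fun _ => ℂ) s z : Fin (m + 1) → ℂ) ∈ X) ∨
      (¬ IsAlg a s z ∧ (s, fun _ => z) ∈
        R {j | ∑ i, ∑ k, c j i k s * z ^ (i : ℕ) * Complex.exp (h s z) ^ (k : ℕ) = 0})} :
        Set ℂ)} ∈ 𝒟 m

theorem closed_CQ : Closed (fun m => {X | CQ m X}) where
  zero := fun _ _ hf => CQ.zero hf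
  compl := fun _ _ hX => CQ.compl hX
  iUnion := fun _ _ hX => CQ.iUnion hX
  preimage := fun _ _ _ hh _ hX => CQ.preimage hX hh
  ex := by
    intro m n r F hF L N hN R₁ R₀ hR₁ hR₀
    have h1 := ex_QmOn hF L N hN (fun E hE => hE) (fun D hD => hD) hR₁
    have h0 := ex_ne_CQ hF L N (fun E hE => hE) (fun D hD => hD) hR₀
    have h2 := CQ.iUnion (X := fun b : Bool => if b then
      {s | ∃ x, F s x = 0 ∧ (∀ j, N j x ≠ 0) ∧ (s, L x) ∈ R₁} else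
      {s | ∃ x, F s x ≠ 0 ∧ (∀ j, N j x ≠ 0) ∧ (s, L x) ∈ R₀}) (by
        intro b
        cases b
        · exact h0
        · exact h1)
    show CQ m _
    convert h2 using 1
    ext s
    simp only [Set.mem_ofPred_eq, mem_iUnion, Bool.exists_bool, Bool.false_eq_true, if_false,
      if_true]
    constructor
    · rintro ⟨x, hx, h | h⟩
      · exact Or.inr ⟨x, h.1, hx, h.2⟩
      · exact Or.inl ⟨x, h.1, hx, h.2⟩
    · rintro (⟨x, h, hx, h'⟩ | ⟨x, h, hx, h'⟩)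
      · exact ⟨x, hx, Or.inr ⟨h, h'⟩⟩
      · exact ⟨x, hx, Or.inl ⟨h, h'⟩⟩
  count := by
    intro m d a ha X hX F hF R₁ R₀ hR₁ hR₀ κ
    exact CQ.count_one ha hX hF (fun E hE => hE) (fun D hD => hD) hR₀ hR₁ κ
  system := by
    intro m d e n a ha X hX c hc h hh R hR κ
    exact CQ.count_system ha hX hc hh (fun E hE => hE) (fun D hD => hD) hR κ

/-- Every set of complex numbers in the least closed family is countable or cocountable. -/
theorem result : ∀ X : Set ℂ,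
    (∀ 𝒟 : (m : ℕ) → Set (Set (Fin m → ℂ)), Closed 𝒟 → {v : Fin 1 → ℂ | v 0 ∈ X} ∈ 𝒟 1) →
    X.Countable ∨ Xᶜ.Countable := by
  intro X hX
  have h1 := (hX _ closed_CQ : CQ 1 {v : Fin 1 → ℂ | v 0 ∈ X}).qm
  exact h1

end Pool.Agent.Results.MP_a12702_lc.OneEquationQuantifiers
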